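import Pool.Agent.H12.Sc13

/-!
MP_fdcced_nt, Q2: for every prime `p = x^2 + y^2` with `p % 4 = 1`, `x % 4 = 1`,
`∑_{k<p} C(-1/4,k)^2 / (-8)^k` is congruent modulo `p^2` to `(-1)^(y/4) (2x - p/(2x))` if
`p % 8 = 1` and to `(-1)^((y-2)/4) (2y - p/(2y))` if `p % 8 = 5`.
-/

namespace Pool.Agent.Results.MP_fdcced_nt.QTwo

theorem result (p : ℕ) (hp : p.Prime) (x y : ℤ)
    (hxy : (p : ℤ) = x ^ 2 + y ^ 2) (hx : x % 4 = 1) :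
    (p % 8 = 1 → ∃ a b : ℤ, ¬ (p : ℤ) ∣ b ∧
      (∑ k ∈ Finset.range p, Ring.choose (-1 / 4 : ℚ) k ^ 2 / (-8) ^ k) -
        (-1) ^ (y / 4) * (2 * (x : ℚ) - (p : ℚ) / (2 * (x : ℚ))) =
          (p : ℚ) ^ 2 * ((a : ℚ) / (b : ℚ))) ∧
    (p % 8 = 5 → ∃ a b : ℤ, ¬ (p : ℤ) ∣ b ∧
      (∑ k ∈ Finset.range p, Ring.choose (-1 / 4 : ℚ) k ^ 2 / (-8) ^ k) -
        (-1) ^ ((y - 2) / 4) * (2 * (y : ℚ) - (p : ℚ) / (2 * (y : ℚ))) =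
          (p : ℚ) ^ 2 * ((a : ℚ) / (b : ℚ))) := by
  haveI : Fact p.Prime := ⟨hp⟩
  constructor
  · intro h8
    obtain ⟨n, hn⟩ : ∃ n, p = 4 * n + 1 := ⟨p / 4, by omega⟩
    exact Pool.Agent.H12.Sc.q2_even hn (by omega) hxy.symm hx
  · intro h8
    obtain ⟨n, hn⟩ : ∃ n, p = 4 * n + 1 := ⟨p / 4, by omega⟩
    exact Pool.Agent.H12.Sc.q2_odd hn (by omega) hxy.symm hx

end Pool.Agent.Results.MP_fdcced_nt.QTwo
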